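import Pool.Agent.H37.CTN.Stmts

/-!
# Row GN1 of the board ctn (MP_b57703_ag): transitive subgroups of `SL_n(F)` with many transvections
-/

set_option autoImplicit false

namespace Pool.CND

open Matrix

namespace GN1P

variable {F : Type} [Field F] {n : ℕ}

/-- `φ(v) = 0` and `1 + c v φ ∈ G₀` for all `c` -/
def R (G₀ : Subgroup (Matrix.SpecialLinearGroup (Fin n) F)) (v φ : Fin n → F) : Prop :=
  φ ⬝ᵥ v = 0 ∧ ∀ (c : F) (g : Matrix.SpecialLinearGroup (Fin n) F),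
    g.1 = 1 + c • vecMulVec v φ → g ∈ G₀

theorem ex (v φ : Fin n → F) (h : φ ⬝ᵥ v = 0) (c : F) :
    ∃ g : Matrix.SpecialLinearGroup (Fin n) F, g.1 = 1 + c • vecMulVec v φ := by
  refine ⟨⟨1 + c • vecMulVec v φ, ?_⟩, rfl⟩
  rw [← smul_vecMulVec, vecMulVec_eq Unit, det_one_add_replicateCol_mul_replicateRow,
    dotProduct_smul, h, smul_zero, add_zero]

variable {G₀ : Subgroup (Matrix.SpecialLinearGroup (Fin n) F)}

theorem add_right {v φ ψ : Fin n → F} (h1 : R G₀ v φ) (h2 : R G₀ v ψ) : R G₀ v (φ + ψ) := by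
  refine ⟨by rw [add_dotProduct, h1.1, h2.1, add_zero], fun c g hg => ?_⟩
  obtain ⟨g1, e1⟩ := ex v φ h1.1 c
  obtain ⟨g2, e2⟩ := ex v ψ h2.1 c
  have h3 : g = g1 * g2 := by
    apply Subtype.ext
    rw [hg, Matrix.SpecialLinearGroup.coe_mul]
    change _ = g1.1 * g2.1
    rw [e1, e2, mul_add, mul_one, add_mul, one_mul, smul_mul_smul_comm, vecMulVec_mul_vecMulVec,
      h1.1, zero_smul, vecMulVec_zero, smul_zero, vecMulVec_add, smul_add]
    abel
  rw [h3]
  exact G₀.mul_mem (h1.2 c g1 e1) (h2.2 c g2 e2)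

theorem add_left {v w φ : Fin n → F} (h1 : R G₀ v φ) (h2 : R G₀ w φ) : R G₀ (v + w) φ := by
  refine ⟨by rw [dotProduct_add, h1.1, h2.1, add_zero], fun c g hg => ?_⟩
  obtain ⟨g1, e1⟩ := ex v φ h1.1 c
  obtain ⟨g2, e2⟩ := ex w φ h2.1 c
  have h3 : g = g1 * g2 := by
    apply Subtype.ext
    rw [hg, Matrix.SpecialLinearGroup.coe_mul]
    change _ = g1.1 * g2.1
    rw [e1, e2, mul_add, mul_one, add_mul, one_mul, smul_mul_smul_comm, vecMulVec_mul_vecMulVec,
      h2.1, zero_smul, vecMulVec_zero, smul_zero, add_vecMulVec, smul_add]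
    abel
  rw [h3]
  exact G₀.mul_mem (h1.2 c g1 e1) (h2.2 c g2 e2)

theorem smul_left {v φ : Fin n → F} (h1 : R G₀ v φ) (a : F) : R G₀ (a • v) φ := by
  refine ⟨by rw [dotProduct_smul, h1.1, smul_zero], fun c g hg => h1.2 (c * a) g ?_⟩
  rw [hg, smul_vecMulVec, smul_smul]

theorem smul_right {v φ : Fin n → F} (h1 : R G₀ v φ) (a : F) : R G₀ v (a • φ) := by
  refine ⟨by rw [smul_dotProduct, h1.1, smul_zero], fun c g hg => h1.2 (c * a) g ?_⟩
  rw [hg, vecMulVec_smul, smul_smul]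

theorem zero_right (v : Fin n → F) : R G₀ v 0 := by
  refine ⟨zero_dotProduct _, fun c g hg => ?_⟩
  have : g = 1 := by
    apply Subtype.ext
    rw [hg, vecMulVec_zero, smul_zero, add_zero]
    rfl
  rw [this]
  exact G₀.one_mem

theorem conj {v φ : Fin n → F} (g : Matrix.SpecialLinearGroup (Fin n) F) (hg : g ∈ G₀)
    (h : R G₀ v (φ ᵥ* g.1)) : R G₀ (g.1 *ᵥ v) φ := by
  refine ⟨by rw [dotProduct_mulVec, h.1], fun c x hx => ?_⟩
  have h1 : g⁻¹ * x * g ∈ G₀ := by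
    refine h.2 c _ ?_
    have h2 : (g⁻¹).1 * g.1 = 1 := congrArg Subtype.val (inv_mul_cancel g)
    change (g⁻¹).1 * x.1 * g.1 = _
    rw [hx, mul_add, mul_one, add_mul, h2, Matrix.mul_smul, Matrix.smul_mul, mul_vecMulVec,
      Matrix.mulVec_mulVec, h2, one_mulVec, vecMulVec_mul]
  have h3 : x = g * (g⁻¹ * x * g) * g⁻¹ := by group
  rw [h3]
  exact G₀.mul_mem (G₀.mul_mem hg h1) (G₀.inv_mem hg)

theorem conj' {w φ : Fin n → F} (g : Matrix.SpecialLinearGroup (Fin n) F) (hg : g ∈ G₀)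
    (h : R G₀ (g.1 *ᵥ w) φ) : R G₀ w (φ ᵥ* g.1) := by
  have h2 : (g⁻¹).1 * g.1 = 1 := congrArg Subtype.val (inv_mul_cancel g)
  have h3 : g.1 * (g⁻¹).1 = 1 := congrArg Subtype.val (mul_inv_cancel g)
  have h4 : R G₀ (g.1 *ᵥ w) ((φ ᵥ* g.1) ᵥ* (g⁻¹).1) := by
    rw [vecMul_vecMul, h3, vecMul_one]
    exact h
  have h5 := conj g⁻¹ (G₀.inv_mem hg) h4
  rwa [mulVec_mulVec, h2, one_mulVec] at h5

theorem stepI {v w φ ψ : Fin n → F} (h1 : R G₀ v φ) (h2 : R G₀ w ψ) (h3 : φ ⬝ᵥ w ≠ 0)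
    (h4 : ψ ⬝ᵥ v = 0) : R G₀ v ψ := by
  obtain ⟨g, hg⟩ := ex v φ h1.1 1
  have hgG : g ∈ G₀ := h1.2 1 g hg
  rw [one_smul] at hg
  have h5 : R G₀ w (ψ ᵥ* g.1) := by
    rw [hg, vecMul_add, vecMul_one, vecMul_vecMulVec, h4, zero_smul, add_zero]
    exact h2
  have h6 := conj g hgG h5
  have h7 : g.1 *ᵥ w = w + (φ ⬝ᵥ w) • v := by
    rw [hg, add_mulVec, one_mulVec, vecMulVec_mulVec, op_smul_eq_smul]
  rw [h7] at h6
  have h8 := smul_left (add_left h6 (smul_left h2 (-1))) (φ ⬝ᵥ w)⁻¹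
  have h9 : (φ ⬝ᵥ w)⁻¹ • (w + (φ ⬝ᵥ w) • v + (-1 : F) • w) = v := by
    have : w + (φ ⬝ᵥ w) • v + (-1 : F) • w = (φ ⬝ᵥ w) • v := by
      rw [neg_one_smul]
      abel
    rw [this, smul_smul, inv_mul_cancel₀ h3, one_smul]
  rwa [h9] at h8

/-- a vector in the kernel of `φ`, not of `ψ` -/
theorem sep {φ ψ : Fin n → F} (hφ : φ ≠ 0) (h : ¬ ∃ c : F, ψ = c • φ) :
    ∃ w : Fin n → F, φ ⬝ᵥ w = 0 ∧ ψ ⬝ᵥ w ≠ 0 := by
  obtain ⟨i, hi⟩ := Function.ne_iff.1 hφ
  by_contra hcon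
  push Not at hcon
  refine h ⟨ψ i / φ i, ?_⟩
  funext j
  have h1 := hcon (φ i • Pi.single j 1 - φ j • Pi.single i 1) (by
    simp only [dotProduct_sub, dotProduct_smul, dotProduct_single, mul_one, smul_eq_mul]
    ring)
  simp only [dotProduct_sub, dotProduct_smul, dotProduct_single, mul_one, smul_eq_mul] at h1
  have hi' : φ i ≠ 0 := hi
  rw [Pi.smul_apply, smul_eq_mul]
  field_simp
  linear_combination h1

theorem core [Finite F] (hn : 3 ≤ n)
    (htr : ∀ u v : Fin n → F, u ≠ 0 → v ≠ 0 → ∃ g ∈ G₀, g.1.mulVec u = v)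
    (e φ₁ φ₂ : Fin n → F) (he : e ≠ 0) (h1 : R G₀ e φ₁) (h2 : R G₀ e φ₂)
    (hind : ∀ (χ : Fin n → F) (a b : F), φ₁ = a • χ → φ₂ = b • χ → False) :
    ∀ v φ : Fin n → F, φ ⬝ᵥ v = 0 → R G₀ v φ := by
  -- step A
  have stepA : ∀ v : Fin n → F, v ≠ 0 → ∀ φ : Fin n → F, ∃ ψ, R G₀ v ψ ∧ ¬ ∃ c : F, ψ = c • φ := by
    intro v hv φ
    obtain ⟨g, hg, hgv⟩ := htr e v he hv
    have h2' : (g⁻¹).1 * g.1 = 1 := congrArg Subtype.val (inv_mul_cancel g)
    have key : ∀ χ : Fin n → F, R G₀ e χ → R G₀ v (χ ᵥ* (g⁻¹).1) := by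
      intro χ hχ
      rw [← hgv]
      refine conj g hg ?_
      rw [vecMul_vecMul, h2', vecMul_one]
      exact hχ
    by_contra hcon
    push Not at hcon
    obtain ⟨a, ha⟩ := hcon _ (key φ₁ h1)
    obtain ⟨b, hb⟩ := hcon _ (key φ₂ h2)
    refine hind (φ ᵥ* g.1) a b ?_ ?_
    · rw [← smul_vecMul, ← ha, vecMul_vecMul, h2', vecMul_one]
    · rw [← smul_vecMul, ← hb, vecMul_vecMul, h2', vecMul_one]
  -- step B
  have stepB : ∀ v w : Fin n → F, v ≠ 0 → w ≠ 0 →
      {φ | R G₀ w φ}.ncard ≤ {φ | R G₀ v φ}.ncard := by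
    intro v w hv hw
    obtain ⟨g, hg, hgv⟩ := htr v w hv hw
    have h3 : g.1 * (g⁻¹).1 = 1 := congrArg Subtype.val (mul_inv_cancel g)
    refine Set.ncard_le_ncard_of_injOn (fun φ => φ ᵥ* g.1) (fun φ hφ => ?_) (fun φ _ ψ _ h => ?_)
      (Set.toFinite _)
    · have hφ' : R G₀ w φ := hφ
      rw [← hgv] at hφ'
      exact conj' g hg hφ'
    · have h4 := congrArg (fun χ => χ ᵥ* (g⁻¹).1) h
      simpa only [vecMul_vecMul, h3, vecMul_one] using h4
  -- step C
  have stepC : ∀ v w φ : Fin n → F, v ≠ 0 → w ≠ 0 → R G₀ v φ → φ ⬝ᵥ w ≠ 0 →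
      ∃ ψ, R G₀ w ψ ∧ ψ ⬝ᵥ v ≠ 0 := by
    intro v w φ hv hw hφ hφw
    by_contra hcon
    push Not at hcon
    have hsub : {ψ | R G₀ w ψ} ⊆ {ψ | R G₀ v ψ} := fun ψ hψ =>
      stepI hφ hψ hφw (hcon ψ hψ)
    have heq := Set.eq_of_subset_of_ncard_le hsub (stepB w v hw hv) (Set.toFinite _)
    have : φ ∈ {ψ | R G₀ w ψ} := by
      rw [heq]
      exact hφ
    exact hφw this.1
  -- step D
  have stepD : ∀ v w φ ψ : Fin n → F, v ≠ 0 → R G₀ v φ → φ ⬝ᵥ w = 0 → R G₀ v ψ →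
      ψ ⬝ᵥ w ≠ 0 → R G₀ w φ := by
    intro v w φ ψ hv hφ hφw hψ hψw
    have hw : w ≠ 0 := by
      rintro rfl
      exact hψw (dotProduct_zero _)
    obtain ⟨χ, hχ, hχv⟩ := stepC v w ψ hv hw hψ hψw
    exact stepI hχ hφ hχv hφw
  -- step E
  have stepE : ∀ v φ : Fin n → F, v ≠ 0 → φ ≠ 0 → R G₀ v φ → ∀ w, φ ⬝ᵥ w = 0 → R G₀ w φ := by
    intro v φ hv hφ0 hφ w hw
    obtain ⟨ψ, hψ, hne⟩ := stepA v hv φ
    obtain ⟨w', hw', hψw'⟩ := sep hφ0 hne
    by_cases hc : ψ ⬝ᵥ w = 0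
    · have h3 : R G₀ (w + w') φ := stepD v (w + w') φ ψ hv hφ
        (by rw [dotProduct_add, hw, hw', add_zero]) hψ (by rwa [dotProduct_add, hc, zero_add])
      have h4 : R G₀ w' φ := stepD v w' φ ψ hv hφ hw' hψ hψw'
      have h5 := add_left h3 (smul_left h4 (-1))
      have h6 : w + w' + (-1 : F) • w' = w := by
        rw [neg_one_smul]
        abel
      rwa [h6] at h5
    · exact stepD v w φ ψ hv hφ hw hψ hc
  have hφ1 : φ₁ ≠ 0 := by
    rintro rfl
    exact hind φ₂ 0 1 (by rw [zero_smul]) (by rw [one_smul])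
  -- step F
  let T : Submodule F (Fin n → F) :=
    { carrier := {φ | ∀ v, φ ⬝ᵥ v = 0 → R G₀ v φ}
      zero_mem' := fun v _ => zero_right v
      add_mem' := by
        intro φ ψ hφ hψ v hv
        by_cases h0 : φ + ψ = 0
        · rw [h0]
          exact zero_right v
        let f : (Fin n → F) →ₗ[F] (Fin 2 → F) :=
          { toFun := fun v => ![φ ⬝ᵥ v, ψ ⬝ᵥ v]
            map_add' := by
              intro x y
              funext i
              fin_cases i <;> simp [dotProduct_add]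
            map_smul' := by
              intro c x
              funext i
              fin_cases i <;> simp [dotProduct_smul] }
        have hker : LinearMap.ker f ≠ ⊥ := LinearMap.ker_ne_bot_of_finrank_lt (by
          rw [Module.finrank_fin_fun, Module.finrank_fin_fun]
          omega)
        obtain ⟨v₀, hv₀, hne⟩ := (Submodule.ne_bot_iff _).1 hker
        have hf : f v₀ = 0 := hv₀
        have e1 : φ ⬝ᵥ v₀ = 0 := congrFun hf 0
        have e2 : ψ ⬝ᵥ v₀ = 0 := congrFun hf 1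
        exact stepE v₀ (φ + ψ) hne h0 (add_right (hφ v₀ e1) (hψ v₀ e2)) v hv
      smul_mem' := by
        intro c φ hφ v hv
        by_cases hc : c = 0
        · rw [hc, zero_smul]
          exact zero_right v
        · rw [smul_dotProduct, smul_eq_mul] at hv
          exact smul_right (hφ v ((mul_eq_zero.1 hv).resolve_left hc)) c }
  have hT : T = ⊤ := by
    by_contra hT
    obtain ⟨f, hf0, hf⟩ := Submodule.exists_le_ker_of_lt_top T (lt_top_iff_ne_top.2 hT)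
    set v : Fin n → F := fun i => f (Pi.single i 1) with hv
    have hfv : ∀ φ : Fin n → F, f φ = φ ⬝ᵥ v := by
      intro φ
      conv_lhs => rw [← Finset.univ_sum_single φ]
      rw [map_sum]
      refine Finset.sum_congr rfl fun i _ => ?_
      have : (Pi.single i (φ i) : Fin n → F) = φ i • Pi.single i 1 := by
        rw [← Pi.single_smul, smul_eq_mul, mul_one]
      rw [this, map_smul, smul_eq_mul]
    have hv0 : v ≠ 0 := by
      intro h0
      apply hf0
      refine LinearMap.ext fun φ => ?_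
      rw [hfv, h0, dotProduct_zero]
      rfl
    have hφ1T : ∀ w, φ₁ ⬝ᵥ w = 0 → R G₀ w φ₁ := stepE e φ₁ he hφ1 h1
    apply hφ1
    funext i
    by_contra hi
    have hne : (Pi.single i 1 : Fin n → F) ≠ 0 := by
      intro h
      have := congrFun h i
      simp at this
    obtain ⟨g, hg, hgv⟩ := htr v (Pi.single i 1) hv0 hne
    have h3 : (φ₁ ᵥ* g.1) ∈ T := by
      intro u hu
      rw [← dotProduct_mulVec] at hu
      exact conj' g hg (hφ1T _ hu)
    have h4 := hf h3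
    rw [LinearMap.mem_ker, hfv, ← dotProduct_mulVec, hgv, dotProduct_single, mul_one] at h4
    exact hi h4
  intro v φ hφ
  have : φ ∈ T := by
    rw [hT]
    trivial
  exact this v hφ

end GN1P

theorem gn1_thm (h1 : S_GN3) : S_GN1 := by
  intro F _ _ r m G₀ hm htr hG
  have he : ∀ j : Fin (r + m + 1), r < j.val →
      GN1P.R G₀ (Pi.single 0 1) (Pi.single j 1) := by
    intro j hj
    have hj0 : j ≠ 0 := by
      rintro rfl
      simp at hj
    refine ⟨by rw [dotProduct_single, mul_one, Pi.single_eq_of_ne hj0.symm], fun c g hg => ?_⟩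
    refine hG g (fun i k hi => ?_) ?_ (fun k hk hkr => ?_)
    · rw [hg, Matrix.add_apply, Matrix.smul_apply, vecMulVec_apply, Pi.single_eq_of_ne hi,
        zero_mul, smul_zero, add_zero, Matrix.one_apply]
    · rw [hg, Matrix.add_apply, Matrix.smul_apply, vecMulVec_apply, Pi.single_eq_of_ne hj0.symm,
        mul_zero, smul_zero, add_zero, Matrix.one_apply_eq]
    · have hkj : k ≠ j := by
        rintro rfl
        omega
      rw [hg, Matrix.add_apply, Matrix.smul_apply, vecMulVec_apply, Pi.single_eq_of_ne hkj,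
        mul_zero, smul_zero, add_zero, Matrix.one_apply_ne hk.symm]
  have e0 : (Pi.single 0 1 : Fin (r + m + 1) → F) ≠ 0 := by
    intro h
    have := congrFun h 0
    simp at this
  have hall := GN1P.core (G₀ := G₀) (by omega) htr (Pi.single 0 1)
    (Pi.single ⟨r + 1, by omega⟩ 1) (Pi.single ⟨r + 2, by omega⟩ 1) e0
    (he _ (by simp)) (he _ (by simp)) (by
      intro χ a b ha hb
      have e1 := congrFun ha ⟨r + 1, by omega⟩
      have e2 := congrFun hb ⟨r + 1, by omega⟩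
      have e3 := congrFun hb ⟨r + 2, by omega⟩
      have hne : (⟨r + 1, by omega⟩ : Fin (r + m + 1)) ≠ ⟨r + 2, by omega⟩ := by
        intro h
        have := congrArg Fin.val h
        simp at this
      rw [Pi.single_eq_same, Pi.smul_apply, smul_eq_mul] at e1 e3
      rw [Pi.single_eq_of_ne hne, Pi.smul_apply, smul_eq_mul] at e2
      rcases mul_eq_zero.1 e2.symm with h | h
      · rw [h, zero_mul] at e3
        exact one_ne_zero e3
      · rw [h, mul_zero] at e1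
        exact one_ne_zero e1)
  refine h1 F (r + m + 1) G₀ fun g v φ hφ hg => (hall v φ hφ).2 1 g ?_
  rw [hg, one_smul]

end Pool.CND
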